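import Pool.Agent.Lib.MP_e26b79_pr.Process

namespace Pool.Agent.Results.MP_e26b79_pr.ExceptionalTimes
open MeasureTheory ProbabilityTheory Pool.Agent.Lib.MP_e26b79_pr
open scoped NNReal

/-- Exceptional times for critical site percolation on the triangular lattice under symmetric
exclusion dynamics, for every exponent `a > 0`. The lower bound on the kernel is only needed for
neighbouring sites. `ω x` is the initial colour of `x` (`true` is black), `N e` is the clock of the
unordered pair `e`. -/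
theorem result {Ω : Type*} [MeasurableSpace Ω] (μ : Measure Ω) [IsProbabilityMeasure μ]
    (a c C : ℝ) (ha : 0 < a) (hc : 0 < c) (P : ℤ × ℤ → ℤ × ℤ → ℝ≥0)
    (hsymm : ∀ x y, P x y = P y x) (hdiag : ∀ x, P x x = 0)
    (hlow : ∀ x y, ‖emb x - emb y‖ = 1 → c ≤ P x y)
    (hup : ∀ x y, x ≠ y → (P x y : ℝ) ≤ C / ‖emb x - emb y‖ ^ (2 + a))
    (ω : ℤ × ℤ → Ω → Bool) (N : Sym2 (ℤ × ℤ) → ℝ≥0 → Ω → ℕ)
    (hω : ∀ x, Measurable (ω x)) (hhalf : ∀ x, μ {w | ω x w = true} = 1 / 2)
    (hN : ∀ x y, IsPoisson μ (P x y) (N s(x, y)))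
    (hind : iIndep (Sum.elim
      (fun x : ℤ × ℤ => MeasurableSpace.comap (ω x) inferInstance)
      (fun e : Sym2 (ℤ × ℤ) => MeasurableSpace.comap (fun w t => N e t w) inferInstance)) μ) :
    ∀ᵐ w ∂μ, (∀ t x, ∃! y, Src (fun e t => N e t w) x t y) ∧
      ∃ t, ∃ K : (tri.induce (black (fun e t => N e t w) (fun x => ω x w) t)).ConnectedComponent,
        K.supp.Infinite := by
  have h : Model μ ω N (Sym2.lift ⟨P, hsymm⟩) :=
    { pois := fun e => by
        induction e using Sym2.ind with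
        | _ x y => exact ⟨(hN x y).meas, (hN x y).mono, (hN x y).indep, (hN x y).law⟩
      mc := hω
      half := fun x => by rw [measureReal_def, hhalf]; simp
      indp := hind }
  obtain ⟨M, hM⟩ := rate_bound ha hdiag hup
  filter_upwards [h.total hM, h.main hM (κ := ⟨c, hc.le⟩) hc fun x =>
    hlow x _ (norm_emb_of_adj (by simp [adj]))] with w h1 ⟨t, x, h2⟩
  exact ⟨h1, t, tri_infinite h2⟩

end Pool.Agent.Results.MP_e26b79_pr.ExceptionalTimes
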