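import Pool.Agent.Lib.MP_e26b79_ns.Transfer

namespace Pool.Agent.Results.MP_e26b79_pr.NoiseSensitivity
open MeasureTheory ProbabilityTheory Pool.Agent.Lib.MP_e26b79_pr Pool.Agent.Lib.MP_e26b79_ns
open scoped NNReal ENNReal

/-- Polynomial noise sensitivity of left-right crossings for critical site percolation on the
triangular lattice under every symmetric exclusion dynamics with bounded total rates whose rates
between neighbours are at least `c`; the nearest-neighbour exclusion process is included.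
`ω x` is the initial colour of `x` (`true` is black), `N e` is the clock of the unordered pair `e`,
`A a b t` is the event that the box is crossed by black sites at time `t`. -/
theorem result : ∃ ε C : ℝ, 0 < ε ∧ 0 < C ∧
    ∀ {Ω : Type*} [MeasurableSpace Ω] (μ : Measure Ω) [IsProbabilityMeasure μ]
      (c M : ℝ≥0) (P : ℤ × ℤ → ℤ × ℤ → ℝ≥0), 0 < c → (∀ x y, P x y = P y x) →
      (∀ x y, tri.Adj x y → c ≤ P x y) → (∀ x, ∑' y, (P x y : ℝ≥0∞) ≤ M) →
    ∀ (ω : ℤ × ℤ → Ω → Bool) (N : Sym2 (ℤ × ℤ) → ℝ≥0 → Ω → ℕ),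
      (∀ x, Measurable (ω x)) → (∀ x, μ {w | ω x w = true} = 1 / 2) →
      (∀ x y, IsPoisson μ (P x y) (N s(x, y))) →
      iIndep (Sum.elim
        (fun x : ℤ × ℤ => MeasurableSpace.comap (ω x) inferInstance)
        (fun e : Sym2 (ℤ × ℤ) => MeasurableSpace.comap (fun w t => N e t w) inferInstance)) μ →
    ∀ A : ℕ → ℕ → ℝ≥0 → Set Ω,
      (∀ a b t, A a b t = {w | Cross a b (black (fun e s => N e s w) (fun x => ω x w) t)}) →
      (∀ᵐ w ∂μ, ∀ t x, ∃! y, Src (fun e s => N e s w) x t y) ∧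
      (∀ a b t, NullMeasurableSet (A a b t) μ) ∧
      ∀ (a b : ℕ) (t : ℝ≥0), 64 ≤ a → 64 ≤ b → 0 < t →
        |μ.real (A a b 0 ∩ A a b t) - μ.real (A a b 0) * μ.real (A a b t)| ≤
          C * √(1 + 1 / (c * t)) * (a : ℝ) ^ (-ε) := by
  obtain ⟨ε, C, ε0, C0, hv⟩ := var_pow
  refine ⟨ε, 2 * C, ε0, by positivity, ?_⟩
  intro Ω _ μ _ c M P hc hsymm hlow hM ω N hω hhalf hN hind A hA
  have h : Model μ ω N (Sym2.lift ⟨P, hsymm⟩) :=
    { pois := fun e => by
        induction e using Sym2.ind with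
        | _ x y => exact ⟨(hN x y).meas, (hN x y).mono, (hN x y).indep, (hN x y).law⟩
      mc := hω
      half := fun x => by rw [measureReal_def, hhalf]; simp
      indp := hind }
  have st := fun (a b : ℕ) t => stat h hM (rs_finite 0 a 0 b) (loc_HC 0 a 0 b) t
  simp only [hA, cross_iff]
  refine ⟨h.total hM, fun a b t => (st a b t).1, fun a b t ha hb ht => ?_⟩
  rw [(st a b 0).2, (st a b t).2, ← sq]
  refine (cov_le h hM hc (fun x y e => hlow x y (tri_adj.2 e)) (rs_finite _ _ _ _)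
    (fun v hv => by simp only [mem_rs] at *; omega) (hv a b ha hb) ht).trans ?_
  have k0 : (0:ℝ) < c * t := by exact_mod_cast mul_pos hc ht
  have k1 : (0:ℝ) ≤ (a : ℝ) ^ (-ε) := by positivity
  rw [Real.sqrt_le_left (by positivity), mul_pow, mul_pow, mul_pow, mul_pow,
    Real.sq_sqrt (by positivity), show (4:ℝ) / (c * t) = 4 * (1 / (c * t)) by ring]
  have k2 : (0:ℝ) ≤ C ^ 2 * ((a : ℝ) ^ (-ε)) ^ 2 := by positivity
  nlinarith

end Pool.Agent.Results.MP_e26b79_pr.NoiseSensitivity
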